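import Mathlib
import Pool.Agent.U896.VT.FinalT

/-!
# Symplectic forms in a class from a measurable form comparable with a nondegenerate form

`X` is a closed manifold, `τ` is a two-form on `X`, and `a` is the class of the smooth closed form
`σ₀`. Suppose that `a` contains a measurable form `σ = σ₀ + dβ` (in the sense of distributions, with
locally integrable `σ` and `β`, which need not be bounded) of Morrey growth with an exponent `a < 1`
which is nearly nondegenerate and comparable with `τ`: in charts, on every small ball `B(y, t)` the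
form `σ` is close in the mean to a convex set of constant forms which contains `τ(y)` and whose
members have a common lower bound; the set may depend on the ball, and the mean distance has to tend
to zero with `t`. Then the class `a` contains a symplectic form `ω`, and `τ` and `ω` are homotopic
through nondegenerate forms by the straight path.

For instance, `τ` is continuous and nondegenerate, and `a` contains a measurable closed form with
`|σ - τ| < c (1 - ε)` where `c` is the lower bound of `τ`; or `σ` has vanishing mean oscillation and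
the segments between `τ(y)` and the mean values of `σ` over small balls around `y` are uniformly
nondegenerate. No almost complex structure is used.
-/

set_option autoImplicit false

open Set MeasureTheory
open scoped Manifold ContDiff

namespace Pool.Agent.Results.MP_bf98aa_gt.ComparisonForm

open Pool.Agent.Y501.SYP Pool.Agent.U896.SWP Pool.Agent.U896.SVP Pool.Agent.U896.SCP
  Pool.Agent.U896.VMP Pool.Agent.U896.VTP

theorem result (d : ℕ) (hd : 0 < d) (X : Type) [TopologicalSpace X] [ChartedSpace (ES d) X]
    [IsManifold 𝓘(ℝ, ES d) ∞ X] [CompactSpace X] [T2Space X]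
    (a : ℝ) (ha : 0 ≤ a) (ha1 : a < 1) (τ : Form (ES d) X 2)
    (σ₀ : Form (ES d) X 2) (hσ₀ : IsSmooth σ₀) (hσ₀c : IsClosedForm σ₀)
    (β : Form (ES d) X 1) (σ : Form (ES d) X 2) (hβ : LocInt1 β) (hσ : LocInt σ)
    (hβσ : WeaklyPlusD σ σ₀ β) (hM : MorreyGrowth a σ)
    (hn : ∀ x, NearlyNondegenerateWith {τ} σ x) :
    ∃ (α : Form (ES d) X 1) (ρ : Form (ES d) X 2), IsSmooth α ∧ IsSmooth ρ ∧ IsD α ρ ∧
      IsSmooth (addF σ₀ ρ) ∧ IsClosedForm (addF σ₀ ρ) ∧ NondegForm (addF σ₀ ρ) ∧
      ∀ t : ℝ, 0 ≤ t → t ≤ 1 → NondegForm (segment τ (addF σ₀ ρ) t) := by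
  obtain ⟨α, ρ, h1, h2, h3, h4, h5, h6, h7⟩ :=
    nearlyT hd ha ha1 {τ} σ₀ hσ₀ hσ₀c β σ hβ hσ hβσ hM hn
  exact ⟨α, ρ, h1, h2, h3, h4, h5, h6, h7 τ rfl⟩

end Pool.Agent.Results.MP_bf98aa_gt.ComparisonForm
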