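import Mathlib
import Pool.Agent.U896.SQ.FinalCQ

/-!
# Positive closed currents with coefficients in `L¹` in a prescribed class

`X` is a closed manifold with an almost complex structure `J` which is Hölder continuous with
exponent `γ ≤ 1`, `σ₀` is a smooth closed two-form, and `β` and `σ` are measurable and locally
integrable forms of degree one and two with `σ = σ₀ + dβ` in the sense of distributions. So `σ` is a
closed current with coefficients in `L¹` in the class of `σ₀`. Off a null set `N` one has
`σ(v, Jv) ≥ 0`, and near every point the Cauchy-Schwarz bound `σ(v, w)² ≤ B σ(v, Jv) σ(w, Jw)` holds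
off `N`. If `σ` is `J`-invariant, that is, a positive current of type `(1, 1)`, then the bound holds
with `B = 1` (`Pool.Agent.U896.SQP.cs_of_invariant`).

Assume that `σ` has Morrey growth of exponent `a < 2 γ`: locally, the integral of `|σ|` over a ball
of radius `t` is at most `C t ^ (d - a)`. For positive currents of type `(1, 1)` and smooth `J` this
holds with `a = 2` by monotonicity, and for Lipschitz continuous `J` any exponent `a < 2` is
admitted. If the components of the set of points near which `σ` is not uniformly taming (off `N`)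
are small, then the class of `σ₀` contains a symplectic form taming `J`, homotopic through
nondegenerate forms to every form taming `J`.
-/

set_option autoImplicit false

open Set MeasureTheory
open scoped Manifold ContDiff

namespace Pool.Agent.Results.MP_bf98aa_gt.PositiveInClass

open Pool.Agent.Y501.SYP Pool.Agent.U896.SEP Pool.Agent.U896.SWP Pool.Agent.U896.SVP
  Pool.Agent.U896.SCP Pool.Agent.U896.SQP

theorem result (d : ℕ) (hd : 2 ≤ d) (X : Type) [TopologicalSpace X] [ChartedSpace (ES d) X]
    [IsManifold 𝓘(ℝ, ES d) ∞ X] [CompactSpace X] [T2Space X]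
    (a γ : ℝ) (ha : 0 ≤ a) (haγ : a < 2 * γ) (hγ : γ ≤ 1)
    (J : End (ES d) X) (hJ : IsAlmostComplex J) (hHol : ∀ x, HolderNear γ J x) (N : Set X)
    (hN : NullSet (d := d) N) (σ₀ : Form (ES d) X 2) (hσ₀ : IsSmooth σ₀) (hσ₀c : IsClosedForm σ₀)
    (β : Form (ES d) X 1) (σ : Form (ES d) X 2) (hβ : LocInt1 β) (hσ : LocInt σ)
    (hβσ : WeaklyPlusD σ σ₀ β) (hM : MorreyGrowth a σ) (hCS : ∀ x, CauchySchwarzNear σ J N x)
    (hpos : ∀ x, x ∉ N → ∀ v : TangentSpace 𝓘(ℝ, ES d) x, 0 ≤ qd σ J x v)
    (hsmall : ∀ z ∈ Crit σ J N, SmallAll J (connectedComponentIn (Crit σ J N) z) z) :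
    ∃ (α : Form (ES d) X 1) (ρ : Form (ES d) X 2), IsSmooth α ∧ IsSmooth ρ ∧ IsD α ρ ∧
      IsTamingSymplectic (addF σ₀ ρ) J ∧ ∀ τ : Form (ES d) X 2, (∀ x, TamesAt τ J x) →
        ∀ t : ℝ, 0 ≤ t → t ≤ 1 → NondegForm (segment τ (addF σ₀ ρ) t) :=
  currentsCQ hd ha haγ hγ J hJ hHol N hN σ₀ hσ₀ hσ₀c β σ hβ hσ hβσ hM hCS hpos hsmall

end Pool.Agent.Results.MP_bf98aa_gt.PositiveInClass
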