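import Mathlib
import Pool.Agent.U896.SC.FinalCL

/-!
# Two-forms of Morrey growth in a prescribed class

`X` is a closed manifold with an almost complex structure `J`, Hölder continuous with exponent `γ`,
`σ₀` is a smooth closed two-form and `β` is a measurable one-form, both `β` and `σ = σ₀ + dβ` (in
the sense of distributions) being locally integrable. The form `σ` has Morrey growth of exponent
`a < γ`: locally, the integral of `|σ|` over a ball of radius `t` is at most `C t ^ (d - a)`. This
is the case if `|σ| ^ p` is locally integrable for some `p > d / γ`. Off a null set `N` the form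
`σ` is weakly taming, `σ(v, Jv) ≥ 0`; no bound on its eccentricity is assumed. If the components of
the set of points near which `σ` is not uniformly taming (off `N`) are small, then the class of
`σ₀` contains a symplectic form taming `J`, homotopic through nondegenerate forms to every form
taming `J`.
-/

set_option autoImplicit false

open Set MeasureTheory
open scoped Manifold ContDiff

namespace Pool.Agent.Results.MP_bf98aa_gt.SobolevInClass

open Pool.Agent.Y501.SYP Pool.Agent.U896.SWP Pool.Agent.U896.SVP Pool.Agent.U896.SCP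

theorem result (d : ℕ) (hd : 0 < d) (X : Type) [TopologicalSpace X] [ChartedSpace (ES d) X]
    [IsManifold 𝓘(ℝ, ES d) ∞ X] [CompactSpace X] [T2Space X]
    (a γ : ℝ) (ha : 0 ≤ a) (haγ : a < γ) (hγ : γ ≤ 1)
    (J : End (ES d) X) (hJ : IsAlmostComplex J) (hHol : ∀ x, HolderNear γ J x)
    (N : Set X) (hN : NullSet (d := d) N)
    (σ₀ : Form (ES d) X 2) (hσ₀ : IsSmooth σ₀) (hσ₀c : IsClosedForm σ₀)
    (β : Form (ES d) X 1) (σ : Form (ES d) X 2) (hβ : LocInt1 β) (hσ : LocInt σ)
    (hβσ : WeaklyPlusD σ σ₀ β) (hM : MorreyGrowth a σ)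
    (hpos : ∀ x, x ∉ N → ∀ v : TangentSpace 𝓘(ℝ, ES d) x, 0 ≤ qd σ J x v)
    (hsmall : ∀ z ∈ Crit σ J N, SmallAll J (connectedComponentIn (Crit σ J N) z) z) :
    ∃ (α : Form (ES d) X 1) (ρ : Form (ES d) X 2), IsSmooth α ∧ IsSmooth ρ ∧ IsD α ρ ∧
      IsTamingSymplectic (addF σ₀ ρ) J ∧ ∀ τ : Form (ES d) X 2, (∀ x, TamesAt τ J x) →
        ∀ t : ℝ, 0 ≤ t → t ≤ 1 → NondegForm (segment τ (addF σ₀ ρ) t) :=
  sobolevC hd ha haγ hγ J hJ hHol N hN σ₀ hσ₀ hσ₀c β σ hβ hσ hβσ hM hpos hsmall

end Pool.Agent.Results.MP_bf98aa_gt.SobolevInClass
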